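import Mathlib

/-!
# Skew Bollobas theorem for products of pairs (linear algebra half of the flash problem)

For finite sets `P, Z` of natural numbers put `B P Z = ∏_{z ∈ Z} ∏_{x ∈ P} (z - x)`; it is non-zero
iff `P` and `Z` are disjoint.  If `|P| = a` and `|Z| = b` then `B P Z = ∑_s x P s * y Z s`, where
`s` runs over the multisets of size `b` in `a + 1` elements (expand the product over `z` by the
coefficients of the monic polynomial with root set `P`), and there are `(a+b).choose a` of them.
Products of such matrices give the bound `∏_j (a_j + b_j).choose a_j` for skew systems of tuples of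
pairs.
-/

set_option autoImplicit false

namespace FlashRainbow

namespace SB

open Finset Polynomial

/-- the resultant of the two polynomials with root sets `P` and `Z` -/
def B (P Z : Finset ℕ) : ℚ := ∏ z ∈ Z, ∏ x ∈ P, ((z : ℚ) - x)

theorem B_ne_zero_iff {P Z : Finset ℕ} : B P Z ≠ 0 ↔ Disjoint P Z := by
  unfold B
  rw [Finset.prod_ne_zero_iff]
  constructor
  · intro h
    rw [Finset.disjoint_left]
    intro a haP haZ
    have h1 := h a haZ
    rw [Finset.prod_ne_zero_iff] at h1
    exact h1 a haP (sub_self _)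
  · intro h z hz
    rw [Finset.prod_ne_zero_iff]
    intro x hx h1
    have h2 : z = x := by exact_mod_cast sub_eq_zero.mp h1
    subst h2
    exact Finset.disjoint_left.mp h hx hz

/-- the monic polynomial with root set `P` -/
noncomputable def pol (P : Finset ℕ) : ℚ[X] := ∏ x ∈ P, (X - C (x : ℚ))

theorem pol_eval (P : Finset ℕ) (z : ℚ) : (pol P).eval z = ∏ x ∈ P, (z - x) := by
  unfold pol
  rw [Polynomial.eval_prod]
  simp

theorem pol_natDegree (P : Finset ℕ) : (pol P).natDegree = P.card := by
  unfold pol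
  rw [Polynomial.natDegree_prod_of_monic _ _ (fun i _ => monic_X_sub_C _)]
  simp only [natDegree_X_sub_C, Finset.sum_const, smul_eq_mul, mul_one]

/-- the multiset of the values of `φ` -/
def symOf {a b : ℕ} {Z : Finset ℕ} (hZ : Z.card = b) (φ : Z → Fin (a + 1)) :
    Sym (Fin (a + 1)) b :=
  ⟨Finset.univ.val.map φ, by
    rw [Multiset.card_map, Finset.card_val, Finset.card_univ, Fintype.card_coe, hZ]⟩

/-- the vector of `P` -/
noncomputable def xv (a b : ℕ) (P : Finset ℕ) (s : Sym (Fin (a + 1)) b) : ℚ :=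
  (s.1.map (fun i : Fin (a + 1) => (pol P).coeff i)).prod

/-- the functional of `Z` -/
noncomputable def yv (a b : ℕ) (Z : Finset ℕ) (s : Sym (Fin (a + 1)) b) : ℚ :=
  if h : Z.card = b then
    ∑ φ : Z → Fin (a + 1), if symOf h φ = s then ∏ z : Z, ((z : ℕ) : ℚ) ^ ((φ z : Fin (a + 1)) : ℕ)
      else 0
  else 0

theorem pairing {a b : ℕ} {P Z : Finset ℕ} (hP : P.card = a) (hZ : Z.card = b) :
    ∑ s, xv a b P s * yv a b Z s = B P Z := by
  have h1 : B P Z = ∏ z : Z, ∑ i : Fin (a + 1), (pol P).coeff i * ((z : ℕ) : ℚ) ^ (i : ℕ) := by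
    unfold B
    rw [← Finset.prod_coe_sort Z]
    refine Finset.prod_congr rfl fun z _ => ?_
    rw [← pol_eval, Polynomial.eval_eq_sum_range, pol_natDegree, hP, Finset.sum_range]
  rw [h1, Finset.prod_univ_sum]
  simp only [Fintype.piFinset_univ]
  have h2 : ∀ s, xv a b P s * yv a b Z s = ∑ φ : Z → Fin (a + 1), if symOf hZ φ = s then
      ∏ z : Z, ((pol P).coeff (φ z : ℕ) * ((z : ℕ) : ℚ) ^ ((φ z : Fin (a + 1)) : ℕ)) else 0 := by
    intro s
    unfold yv
    rw [dif_pos hZ, Finset.mul_sum]
    refine Finset.sum_congr rfl fun φ _ => ?_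
    split_ifs with h
    · subst h
      unfold xv symOf
      rw [Finset.prod_mul_distrib]
      congr 1
      simp only [Multiset.map_map]
      rfl
    · simp
  rw [Finset.sum_congr rfl fun s _ => h2 s, Finset.sum_comm]
  refine Finset.sum_congr rfl fun φ _ => ?_
  simp

theorem card_sym (a b : ℕ) : Fintype.card (Sym (Fin (a + 1)) b) = (a + b).choose a := by
  rw [Sym.card_sym_eq_choose, Fintype.card_fin]
  have : a + 1 + b - 1 = a + b := by omega
  rw [this]
  exact (Nat.choose_symm_add).symm

/-- triangular pairing matrices have at most `dim` rows -/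
theorem card_le_of_triangular {I α : Type*} [Fintype I] [LinearOrder α] (V : Finset α)
    (x y : α → I → ℚ) (hd : ∀ v ∈ V, ∑ s, x v s * y v s ≠ 0)
    (ht : ∀ u ∈ V, ∀ v ∈ V, u < v → ∑ s, x u s * y v s = 0) : V.card ≤ Fintype.card I := by
  have hli : LinearIndependent ℚ (fun v : V => x v) := by
    rw [Fintype.linearIndependent_iff]
    intro g hg
    by_contra hne
    push Not at hne
    obtain ⟨i₀, hi₀⟩ := hne
    let S : Finset V := Finset.univ.filter (fun i => g i ≠ 0)
    have hS : S.Nonempty := ⟨i₀, by simp [S, hi₀]⟩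
    obtain ⟨j, hj, hmax⟩ : ∃ j ∈ S, ∀ i ∈ S, i ≤ j := ⟨S.max' hS, S.max'_mem hS, fun i hi => S.le_max' i hi⟩
    have hj0 : g j ≠ 0 := by simpa [S] using hj
    have h1 : ∑ s, (∑ i, g i • x i) s * y j s = 0 := by
      rw [hg]; simp
    have h2 : ∑ s, (∑ i : V, g i • x i) s * y j s = ∑ i : V, g i * ∑ s, x i s * y j s := by
      simp only [Finset.sum_apply, Pi.smul_apply, smul_eq_mul, Finset.sum_mul, Finset.mul_sum]
      rw [Finset.sum_comm]
      refine Finset.sum_congr rfl fun i _ => Finset.sum_congr rfl fun s _ => by ring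
    rw [h2, Finset.sum_eq_single j] at h1
    · rcases mul_eq_zero.mp h1 with h | h
      · exact hj0 h
      · exact hd j j.2 h
    · intro i _ hij
      rcases lt_trichotomy i j with h | h | h
      · rw [ht i i.2 j j.2 h, mul_zero]
      · exact absurd h hij
      · have : g i = 0 := by
          by_contra hgi
          exact absurd (hmax i (by simp [S, hgi])) (not_le.mpr h)
        rw [this, zero_mul]
    · intro h; exact absurd (Finset.mem_univ _) h
  have h3 := hli.fintype_card_le_finrank
  rw [Module.finrank_fintype_fun_eq_card, Fintype.card_coe] at h3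
  exact h3

/-- pairing of product vectors -/
theorem sum_prod_pairing {ι : Type*} [Fintype ι] [DecidableEq ι] {I : ι → Type*}
    [∀ j, Fintype (I j)] (x y : ∀ j, I j → ℚ) :
    ∑ s : ∀ j, I j, (∏ j, x j (s j)) * (∏ j, y j (s j)) = ∏ j, ∑ t : I j, x j t * y j t := by
  rw [Finset.prod_univ_sum]
  simp only [Fintype.piFinset_univ, Finset.prod_mul_distrib]

/-- **Skew Bollobas for tuples of pairs.** -/
theorem hadamard {ι α : Type*} [Fintype ι] [LinearOrder α] (V : Finset α) (a b : ι → ℕ)
    (P Z : α → ι → Finset ℕ) (hP : ∀ v ∈ V, ∀ j, (P v j).card = a j)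
    (hZ : ∀ v ∈ V, ∀ j, (Z v j).card = b j) (hdis : ∀ v ∈ V, ∀ j, Disjoint (P v j) (Z v j))
    (hskew : ∀ u ∈ V, ∀ v ∈ V, u < v → ∃ j, ¬ Disjoint (P u j) (Z v j)) :
    V.card ≤ ∏ j, (a j + b j).choose (a j) := by
  classical
  have h := card_le_of_triangular (I := ∀ j, Sym (Fin (a j + 1)) (b j)) V
    (fun v s => ∏ j, xv (a j) (b j) (P v j) (s j)) (fun v s => ∏ j, yv (a j) (b j) (Z v j) (s j))
    ?_ ?_
  · rw [Fintype.card_pi] at h
    simp only [card_sym] at h
    exact h
  · intro v hv
    rw [sum_prod_pairing, Finset.prod_ne_zero_iff]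
    intro j _
    rw [pairing (hP v hv j) (hZ v hv j), B_ne_zero_iff]
    exact hdis v hv j
  · intro u hu v hv huv
    obtain ⟨j, hj⟩ := hskew u hu v hv huv
    rw [sum_prod_pairing]
    refine Finset.prod_eq_zero (Finset.mem_univ j) ?_
    rw [pairing (hP u hu j) (hZ v hv j)]
    by_contra h
    exact hj (B_ne_zero_iff.mp h)

end SB

end FlashRainbow
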