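import Pool.Agent.Work.MP_54723a_co.SB.SkewBollobas

/-!
# Chains: skew Bollobas theorem for chains, and the sum over all classes
-/

set_option autoImplicit false

namespace FlashRainbow

namespace SB

open Finset

/-- **Skew Bollobas for chains.** `F = W_0 ⊇ W_1 ⊇ … ⊇ W_r`, `P_1 ⊇ … ⊇ P_r`, `P_t ⊆ W_t`,
`|P_t| = k_t`, `|W_t| = k_t + 1`, and for `u < v` some `P_t(u)` is not inside `W_t(v)`. -/
theorem chain {α : Type*} [LinearOrder α] (V : Finset α) (r : ℕ) (k : ℕ → ℕ) (F : Finset ℕ)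
    (P W : α → ℕ → Finset ℕ) (hF : F.card = k 0 + 1) (hW0 : ∀ v ∈ V, W v 0 = F)
    (hP0 : ∀ v ∈ V, P v 0 ⊆ F)
    (hPW : ∀ v ∈ V, ∀ t, t < r → P v (t + 1) ⊆ W v (t + 1))
    (hWW : ∀ v ∈ V, ∀ t, t < r → W v (t + 1) ⊆ W v t)
    (hPP : ∀ v ∈ V, ∀ t, t < r → P v (t + 1) ⊆ P v t)
    (hPc : ∀ v ∈ V, ∀ t, t < r → (P v (t + 1)).card = k (t + 1))
    (hWc : ∀ v ∈ V, ∀ t, t < r → (W v (t + 1)).card = k (t + 1) + 1)
    (hskew : ∀ u ∈ V, ∀ v ∈ V, u < v → ∃ t, t < r ∧ ¬ P u (t + 1) ⊆ W v (t + 1)) :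
    V.card ≤ ∏ t ∈ Finset.range r, (k t).choose (k (t + 1)) := by
  classical
  rcases V.eq_empty_or_nonempty with hV | ⟨v₀, hv₀⟩
  · rw [hV]; simp
  have hWc' : ∀ v ∈ V, ∀ t, t ≤ r → (W v t).card = k t + 1 := by
    intro v hv t ht
    rcases t with _ | t
    · rw [hW0 v hv, hF]
    · exact hWc v hv t (by omega)
  have hkk : ∀ t, t < r → k (t + 1) ≤ k t := by
    intro t ht
    have h1 := Finset.card_le_card (hWW v₀ hv₀ t ht)
    rw [hWc' v₀ hv₀ (t + 1) (by omega), hWc' v₀ hv₀ t (by omega)] at h1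
    omega
  have h := hadamard (ι := Fin r) V (fun t => k (t + 1)) (fun t => k t - k (t + 1))
    (fun v t => P v (t + 1)) (fun v t => W v t \ W v (t + 1)) ?_ ?_ ?_ ?_
  · refine h.trans (le_of_eq ?_)
    rw [Finset.prod_range]
    refine Finset.prod_congr rfl fun t _ => ?_
    rw [Nat.add_sub_cancel' (hkk t t.2)]
  · intro v hv t
    exact hPc v hv t t.2
  · intro v hv t
    rw [Finset.card_sdiff_of_subset (hWW v hv t t.2), hWc' v hv (t + 1) t.2, hWc' v hv t t.2.le]
    have := hkk t t.2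
    omega
  · intro v hv t
    exact Finset.disjoint_sdiff.mono_left (hPW v hv t t.2)
  · intro u hu v hv huv
    have hex := hskew u hu v hv huv
    obtain ⟨ht, hnot⟩ := Nat.find_spec hex
    set t := Nat.find hex with htdef
    refine ⟨⟨t, ht⟩, ?_⟩
    have hprev : P u t ⊆ W v t := by
      rcases Nat.eq_zero_or_pos t with h0 | h0
      · rw [h0, hW0 v hv]; exact hP0 u hu
      · obtain ⟨s, hs⟩ : ∃ s, t = s + 1 := ⟨t - 1, by omega⟩
        have h1 := Nat.find_min hex (m := s) (by omega)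
        push Not at h1
        rw [hs]
        exact h1 (by omega)
    intro hdisj
    apply hnot
    intro x hx
    have h1 : x ∈ W v t := hprev (hPP u hu t ht hx)
    by_contra h2
    exact Finset.disjoint_left.mp hdisj hx (Finset.mem_sdiff.mpr ⟨h1, h2⟩)

/-- chains of sizes -/
theorem sum_classes (r N : ℕ) (K : ℕ) (hK : N ≤ K) :
    ∑ k : Fin r → Fin (K + 1), ∏ t : Fin r,
      ((Fin.cons N (fun i => (k i : ℕ)) : Fin (r + 1) → ℕ) t.castSucc).choose (k t) =
      (r + 1) ^ N := by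
  induction r generalizing N with
  | zero => simp
  | succ r ih =>
    rw [← (Fin.consEquiv (fun _ => Fin (K + 1))).sum_comp, Fintype.sum_prod_type]
    have h1 : ∀ a : Fin (K + 1), ∑ k : Fin r → Fin (K + 1), ∏ t : Fin (r + 1),
        ((Fin.cons N (fun i => ((Fin.consEquiv (fun _ => Fin (K + 1)) (a, k) i : Fin (K + 1)) : ℕ)) :
          Fin (r + 1 + 1) → ℕ) t.castSucc).choose
            (Fin.consEquiv (fun _ => Fin (K + 1)) (a, k) t : Fin (K + 1)) =
        N.choose a * (r + 1) ^ (a : ℕ) := by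
      intro a
      rw [← ih (a : ℕ) (Nat.lt_succ_iff.mp a.2), Finset.mul_sum]
      refine Finset.sum_congr rfl fun k _ => ?_
      rw [Fin.prod_univ_succ]
      congr 1
      refine Finset.prod_congr rfl fun t _ => ?_
      congr 1
      rw [← Fin.succ_castSucc, Fin.cons_succ]
      refine Fin.cases ?_ (fun i => ?_) t.castSucc <;> simp [Fin.consEquiv]
    rw [Finset.sum_congr rfl fun a _ => h1 a]
    rw [← Finset.sum_range (fun a => N.choose a * (r + 1) ^ a)]
    have h2 : ∑ a ∈ Finset.range (K + 1), N.choose a * (r + 1) ^ a =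
        ∑ a ∈ Finset.range (N + 1), N.choose a * (r + 1) ^ a := by
      symm
      apply Finset.sum_subset
      · intro x hx
        simp only [Finset.mem_range] at hx ⊢
        omega
      · intro x _ hx
        simp only [Finset.mem_range, not_lt] at hx
        rw [Nat.choose_eq_zero_of_lt (by omega), zero_mul]
    rw [h2, add_pow]
    refine Finset.sum_congr rfl fun a _ => ?_
    rw [one_pow, mul_one, mul_comm]
    simp

/-- if every class `k` (a weakly decreasing size vector starting with `N`) has at most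
`∏ (k t).choose (k (t+1))` elements then there are at most `(r+1)^N` elements -/
theorem card_le_pow_of_classes {α : Type*} (V : Finset α) (r N : ℕ) (k : α → ℕ → ℕ)
    (hk0 : ∀ v ∈ V, k v 0 = N) (hk : ∀ v ∈ V, ∀ t, t < r → k v (t + 1) ≤ k v t)
    (hcl : ∀ v₀ ∈ V, (V.filter (fun v => ∀ t, t ≤ r → k v t = k v₀ t)).card ≤
      ∏ t ∈ Finset.range r, (k v₀ t).choose (k v₀ (t + 1))) : V.card ≤ (r + 1) ^ N := by
  classical
  have hle : ∀ v ∈ V, ∀ t, t ≤ r → k v t ≤ N := by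
    intro v hv t
    induction t with
    | zero => intro _; exact (hk0 v hv).le
    | succ t ih => intro ht; exact (hk v hv t (by omega)).trans (ih (by omega))
  let cl : α → (Fin r → Fin (N + 1)) := fun v t => ⟨min (k v (t + 1)) N, by omega⟩
  rw [Finset.card_eq_sum_card_fiberwise (f := cl) (t := Finset.univ) (fun _ _ => by simp),
    ← sum_classes r N N le_rfl]
  refine Finset.sum_le_sum fun κ _ => ?_
  rcases (V.filter (fun v => cl v = κ)).eq_empty_or_nonempty with h0 | ⟨v₀, hv₀⟩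
  · rw [h0]; simp
  · obtain ⟨hv₀V, hv₀κ⟩ := Finset.mem_filter.mp hv₀
    have hval : ∀ v ∈ V, ∀ t : Fin r, ((cl v t : Fin (N + 1)) : ℕ) = k v (t + 1) := by
      intro v hv t
      simp only [cl]
      exact min_eq_left (hle v hv _ t.2)
    have h1 : V.filter (fun v => cl v = κ) ⊆ V.filter (fun v => ∀ t, t ≤ r → k v t = k v₀ t) := by
      intro v hv
      obtain ⟨hvV, hvκ⟩ := Finset.mem_filter.mp hv
      refine Finset.mem_filter.mpr ⟨hvV, fun t ht => ?_⟩
      rcases t with _ | t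
      · rw [hk0 v hvV, hk0 v₀ hv₀V]
      · rw [← hval v hvV ⟨t, ht⟩, ← hval v₀ hv₀V ⟨t, ht⟩, hvκ, hv₀κ]
    refine (Finset.card_le_card h1).trans ((hcl v₀ hv₀V).trans (le_of_eq ?_))
    rw [Finset.prod_range]
    refine Finset.prod_congr rfl fun t _ => ?_
    rw [← hval v₀ hv₀V t, hv₀κ]
    congr 1
    rcases t with ⟨_ | t, ht⟩
    · rw [hk0 v₀ hv₀V]; rfl
    · have h2 := hval v₀ hv₀V ⟨t, by omega⟩
      rw [hv₀κ] at h2
      simp only at h2 ⊢
      rw [← h2]
      rfl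

/-- **Tuples of pairs, all classes together.** -/
theorem card_le_pow_of_pairs {α : Type*} [LinearOrder α] (V : Finset α) (r N : ℕ)
    (k : α → ℕ → ℕ) (hk0 : ∀ v ∈ V, k v 0 = N) (hk : ∀ v ∈ V, ∀ t, t < r → k v (t + 1) ≤ k v t)
    (P Z : α → ℕ → Finset ℕ) (hP : ∀ v ∈ V, ∀ t, t < r → (P v t).card = k v (t + 1))
    (hZ : ∀ v ∈ V, ∀ t, t < r → (Z v t).card = k v t - k v (t + 1))
    (hdis : ∀ v ∈ V, ∀ t, t < r → Disjoint (P v t) (Z v t))
    (hskew : ∀ u ∈ V, ∀ v ∈ V, u < v → (∀ t, t ≤ r → k u t = k v t) →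
      ∃ t, t < r ∧ ¬ Disjoint (P u t) (Z v t)) : V.card ≤ (r + 1) ^ N := by
  classical
  refine card_le_pow_of_classes V r N k hk0 hk fun v₀ hv₀ => ?_
  have h := hadamard (ι := Fin r) (V.filter (fun v => ∀ t, t ≤ r → k v t = k v₀ t))
    (fun t => k v₀ (t + 1)) (fun t => k v₀ t - k v₀ (t + 1)) (fun v t => P v t) (fun v t => Z v t)
    ?_ ?_ ?_ ?_
  · refine h.trans (le_of_eq ?_)
    rw [Finset.prod_range]
    refine Finset.prod_congr rfl fun t _ => ?_
    rw [Nat.add_sub_cancel' (hk v₀ hv₀ t t.2)]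
  · intro v hv t
    obtain ⟨hvV, hvk⟩ := Finset.mem_filter.mp hv
    rw [hP v hvV t t.2, hvk (t + 1) t.2]
  · intro v hv t
    obtain ⟨hvV, hvk⟩ := Finset.mem_filter.mp hv
    rw [hZ v hvV t t.2, hvk (t + 1) t.2, hvk t t.2.le]
  · intro v hv t
    exact hdis v (Finset.mem_filter.mp hv).1 t t.2
  · intro u hu v hv huv
    obtain ⟨huV, huk⟩ := Finset.mem_filter.mp hu
    obtain ⟨hvV, hvk⟩ := Finset.mem_filter.mp hv
    obtain ⟨t, ht, h1⟩ := hskew u huV v hvV huv (fun t ht => (huk t ht).trans (hvk t ht).symm)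
    exact ⟨⟨t, ht⟩, h1⟩

/-- **Chains, all classes together.**  `F` has `N + 1` elements. -/
theorem card_le_pow_of_chains {α : Type*} [LinearOrder α] (V : Finset α) (r N : ℕ) (F : Finset ℕ)
    (hF : F.card = N + 1) (P W : α → ℕ → Finset ℕ)
    (hW0 : ∀ v ∈ V, W v 0 = F) (hP0 : ∀ v ∈ V, P v 0 ⊆ F)
    (hPW : ∀ v ∈ V, ∀ t, t < r → P v (t + 1) ⊆ W v (t + 1))
    (hWW : ∀ v ∈ V, ∀ t, t < r → W v (t + 1) ⊆ W v t)
    (hPP : ∀ v ∈ V, ∀ t, t < r → P v (t + 1) ⊆ P v t)
    (hc : ∀ v ∈ V, ∀ t, t < r → (W v (t + 1)).card = (P v (t + 1)).card + 1)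
    (hskew : ∀ u ∈ V, ∀ v ∈ V, u < v →
      (∀ t, t < r → (P u (t + 1)).card = (P v (t + 1)).card) →
      ∃ t, t < r ∧ ¬ P u (t + 1) ⊆ W v (t + 1)) : V.card ≤ (r + 1) ^ N := by
  classical
  have hWc : ∀ v ∈ V, ∀ t, t ≤ r → (W v t).card = (W v t).card - 1 + 1 := by
    intro v hv t ht
    rcases t with _ | t
    · rw [hW0 v hv, hF]; omega
    · rw [hc v hv t ht]; omega
  refine card_le_pow_of_classes V r N (fun v t => (W v t).card - 1) ?_ ?_ fun v₀ hv₀ => ?_
  · intro v hv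
    simp only [hW0 v hv, hF]
    omega
  · intro v hv t ht
    have := Finset.card_le_card (hWW v hv t ht)
    omega
  · refine chain _ r (fun t => (W v₀ t).card - 1) F P W ?_ ?_ ?_ ?_ ?_ ?_ ?_ ?_ ?_
    · simp only [hW0 v₀ hv₀, hF]; omega
    · intro v hv; exact hW0 v (Finset.mem_filter.mp hv).1
    · intro v hv; exact hP0 v (Finset.mem_filter.mp hv).1
    · intro v hv; exact hPW v (Finset.mem_filter.mp hv).1
    · intro v hv; exact hWW v (Finset.mem_filter.mp hv).1
    · intro v hv; exact hPP v (Finset.mem_filter.mp hv).1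
    · intro v hv t ht
      obtain ⟨hvV, hvk⟩ := Finset.mem_filter.mp hv
      have h1 := hvk (t + 1) ht
      have h2 := hc v hvV t ht
      omega
    · intro v hv t ht
      obtain ⟨hvV, hvk⟩ := Finset.mem_filter.mp hv
      have h1 := hvk (t + 1) ht
      have h2 := hWc v hvV (t + 1) ht
      omega
    · intro u hu v hv huv
      obtain ⟨huV, huk⟩ := Finset.mem_filter.mp hu
      obtain ⟨hvV, hvk⟩ := Finset.mem_filter.mp hv
      refine hskew u huV v hvV huv fun t ht => ?_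
      have h1 := huk (t + 1) ht
      have h2 := hvk (t + 1) ht
      have h3 := hc u huV t ht
      have h4 := hc v hvV t ht
      omega

end SB

end FlashRainbow
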