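import Pool.Agent.Work.MP_54723a_co.SB.Chain

/-!
# The count form (helper69, note 7782 (1)): the second cut only needs a count
-/

set_option autoImplicit false

namespace FlashRainbow

namespace SB

open Finset

/-- greedy colouring from left to right -/
theorem greedy {α : Type*} [LinearOrder α] (V : Finset α) (r : α → α → Prop) (d : α → ℕ)
    (h : ∀ v ∈ V, ∀ S : Finset α, S ⊆ V → (∀ u ∈ S, u < v ∧ r u v) → S.card < d v) :
    ∃ f : α → ℕ, (∀ v ∈ V, f v < d v) ∧ ∀ u ∈ V, ∀ v ∈ V, u < v → r u v → f u ≠ f v := by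
  classical
  induction V using Finset.induction_on_max with
  | empty => exact ⟨fun _ => 0, by simp, by simp⟩
  | insert v V hlt ih =>
    obtain ⟨f, hf1, hf2⟩ := ih (fun w hw S hS hu =>
      h w (Finset.mem_insert_of_mem hw) S (hS.trans (Finset.subset_insert _ _)) hu)
    have h1 := h v (Finset.mem_insert_self _ _) (V.filter (fun u => r u v))
      ((Finset.filter_subset _ _).trans (Finset.subset_insert _ _))
      (fun u hu => ⟨hlt u (Finset.mem_filter.mp hu).1, (Finset.mem_filter.mp hu).2⟩)
    obtain ⟨c, hc, hc2⟩ : ∃ c ∈ Finset.range (d v), c ∉ (V.filter (fun u => r u v)).image f := by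
      apply Finset.exists_mem_notMem_of_card_lt_card
      rw [Finset.card_range]
      exact Finset.card_image_le.trans_lt h1
    have hvV : v ∉ V := fun h' => lt_irrefl _ (hlt v h')
    refine ⟨Function.update f v c, ?_, ?_⟩
    · intro w hw
      rcases Finset.mem_insert.mp hw with rfl | hwV
      · simpa using hc
      · have hne : w ≠ v := fun h' => hvV (h' ▸ hwV)
        rw [Function.update_of_ne hne]
        exact hf1 w hwV
    · intro u hu w hw huw hr
      rcases Finset.mem_insert.mp hw with rfl | hwV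
      · have huV : u ∈ V := by
          rcases Finset.mem_insert.mp hu with rfl | huV
          · exact absurd huw (lt_irrefl _)
          · exact huV
        rw [Function.update_self, Function.update_of_ne huw.ne]
        intro heq
        exact hc2 (Finset.mem_image.mpr ⟨u, Finset.mem_filter.mpr ⟨huV, hr⟩, heq⟩)
      · have huV : u ∈ V := by
          rcases Finset.mem_insert.mp hu with rfl | huV
          · exact absurd (huw.trans (hlt w hwV)) (lt_irrefl _)
          · exact huV
        have hne1 : u ≠ v := fun h' => hvV (h' ▸ huV)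
        have hne2 : w ≠ v := fun h' => hvV (h' ▸ hwV)
        rw [Function.update_of_ne hne1, Function.update_of_ne hne2]
        exact hf2 u huV w hwV huw hr

/-- **Colouring form.** Pairs `(P_v, Z_v)`, disjoint, `|P_v| + |Z_v| = N`; call `u < v` unkilled if
`|P_u| = |P_v|` and `P_u` is disjoint from `Z_v`.  If the unkilled pairs are properly coloured
with `q ^ |P_v|` colours, then there are at most `(q+1)^N` elements. -/
theorem card_le_pow_of_colouring {α : Type*} [LinearOrder α] (V : Finset α) (q N : ℕ)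
    (P Z : α → Finset ℕ) (hPZ : ∀ v ∈ V, (P v).card + (Z v).card = N)
    (hdis : ∀ v ∈ V, Disjoint (P v) (Z v)) (f : α → ℕ) (hf1 : ∀ v ∈ V, f v < q ^ (P v).card)
    (hf2 : ∀ u ∈ V, ∀ v ∈ V, u < v → (P u).card = (P v).card → Disjoint (P u) (Z v) →
      f u ≠ f v) : V.card ≤ (q + 1) ^ N := by
  classical
  have hmap : ∀ v ∈ V, (P v).card ∈ Finset.range (N + 1) := by
    intro v hv
    have := hPZ v hv
    rw [Finset.mem_range]; omega
  rw [Finset.card_eq_sum_card_fiberwise (f := fun v => (P v).card) (t := Finset.range (N + 1)) hmap,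
    add_pow]
  refine Finset.sum_le_sum fun a ha => ?_
  have ha' : a ≤ N := Nat.lt_succ_iff.mp (Finset.mem_range.mp ha)
  have hfm : ∀ v ∈ V.filter (fun v => (P v).card = a), f v ∈ Finset.range (q ^ a) := by
    intro v hv
    obtain ⟨hvV, hva⟩ := Finset.mem_filter.mp hv
    rw [Finset.mem_range, ← hva]
    exact hf1 v hvV
  rw [Finset.card_eq_sum_card_fiberwise (f := f) (t := Finset.range (q ^ a)) hfm]
  have hcl : ∀ c ∈ Finset.range (q ^ a),
      ((V.filter (fun v => (P v).card = a)).filter (fun v => f v = c)).card ≤ N.choose a := by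
    intro c _
    have h := hadamard (ι := Unit) ((V.filter (fun v => (P v).card = a)).filter (fun v => f v = c))
      (fun _ => a) (fun _ => N - a) (fun v _ => P v) (fun v _ => Z v) ?_ ?_ ?_ ?_
    · simpa [Nat.add_sub_cancel' ha'] using h
    · intro v hv _
      exact (Finset.mem_filter.mp (Finset.mem_filter.mp hv).1).2
    · intro v hv _
      obtain ⟨h1, h2⟩ := Finset.mem_filter.mp (Finset.mem_filter.mp hv).1
      have := hPZ v h1
      omega
    · intro v hv _
      exact hdis v (Finset.mem_filter.mp (Finset.mem_filter.mp hv).1).1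
    · intro u hu v hv huv
      obtain ⟨hu1, hu2⟩ := Finset.mem_filter.mp hu
      obtain ⟨hv1, hv2⟩ := Finset.mem_filter.mp hv
      obtain ⟨hu3, hu4⟩ := Finset.mem_filter.mp hu1
      obtain ⟨hv3, hv4⟩ := Finset.mem_filter.mp hv1
      refine ⟨(), fun hd => ?_⟩
      exact hf2 u hu3 v hv3 huv (hu4.trans hv4.symm) hd (hu2.trans hv2.symm)
  calc _ ≤ ∑ c ∈ Finset.range (q ^ a), N.choose a := Finset.sum_le_sum hcl
    _ = q ^ a * 1 ^ (N - a) * N.choose a := by
        rw [Finset.sum_const, Finset.card_range, smul_eq_mul, one_pow, mul_one]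

/-- **Count form.** Pairs `(P_v, Z_v)`, disjoint, `|P_v| + |Z_v| = N`; if for every `v` fewer than
`q ^ |P_v|` earlier `u` of the same class have `P_u` disjoint from `Z_v`, then there are at most
`(q+1)^N` elements. -/
theorem card_le_pow_of_count {α : Type*} [LinearOrder α] (V : Finset α) (q N : ℕ)
    (P Z : α → Finset ℕ) (hPZ : ∀ v ∈ V, (P v).card + (Z v).card = N)
    (hdis : ∀ v ∈ V, Disjoint (P v) (Z v))
    (hcount : ∀ v ∈ V, ∀ S : Finset α, S ⊆ V →
      (∀ u ∈ S, u < v ∧ (P u).card = (P v).card ∧ Disjoint (P u) (Z v)) →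
      S.card < q ^ (P v).card) : V.card ≤ (q + 1) ^ N := by
  classical
  obtain ⟨f, hf1, hf2⟩ := greedy V (fun u v => (P u).card = (P v).card ∧ Disjoint (P u) (Z v))
    (fun v => q ^ (P v).card) (fun v hv S hS hu => hcount v hv S hS fun u hu' => hu u hu')
  exact card_le_pow_of_colouring V q N P Z hPZ hdis f hf1
    fun u hu v hv huv h1 h2 => hf2 u hu v hv huv ⟨h1, h2⟩

/-- **Count form, thin case.** `F` has `N + 1` elements, `P_v ⊆ W_v ⊆ F`, `|W_v| = |P_v| + 1`. -/
theorem card_le_pow_of_thin_count {α : Type*} [LinearOrder α] (V : Finset α) (q N : ℕ)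
    (F : Finset ℕ) (hF : F.card = N + 1) (P W : α → Finset ℕ) (hPW : ∀ v ∈ V, P v ⊆ W v)
    (hWF : ∀ v ∈ V, W v ⊆ F) (hc : ∀ v ∈ V, (W v).card = (P v).card + 1)
    (hcount : ∀ v ∈ V, ∀ S : Finset α, S ⊆ V →
      (∀ u ∈ S, u < v ∧ (P u).card = (P v).card ∧ P u ⊆ W v) →
      S.card < q ^ (P v).card) : V.card ≤ (q + 1) ^ N := by
  classical
  refine card_le_pow_of_count V q N P (fun v => F \ W v) ?_ ?_ ?_
  · intro v hv
    have h1 := Finset.card_le_card (hWF v hv)
    have h2 := hc v hv
    rw [Finset.card_sdiff_of_subset (hWF v hv)]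
    omega
  · intro v hv
    exact Finset.disjoint_sdiff.mono_left (hPW v hv)
  · intro v hv S hS hu
    refine hcount v hv S hS fun u huS => ?_
    obtain ⟨h1, h2, h3⟩ := hu u huS
    refine ⟨h1, h2, fun x hx => ?_⟩
    by_contra hxW
    have hxF : x ∈ F := hWF u (hS huS) (hPW u (hS huS) hx)
    exact Finset.disjoint_left.mp h3 hx (Finset.mem_sdiff.mpr ⟨hxF, hxW⟩)

end SB

end FlashRainbow
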