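import Pool.Agent.Work.MP_54723a_co.SB.Support

/-!
# helper6's theorem (note 7829): the class count for two levels in the thin case

Labels `(T_v, J_v)`; `D_v` any member of `J_v` inside `T_v` of maximal size `a`; `F ∉ J_v`,
`|F| = N + 1`; for `u < v` some colour `g ∈ T_v \ T_u` with `S ∪ {g} ∈ J_v` for all `S ∈ J_u`,
`g ∉ S`.  Then the class has at most `N.choose a` elements.
-/

set_option autoImplicit false

namespace FlashRainbow

namespace SB

open Finset

theorem count_two {α : Type*} [LinearOrder α] (V : Finset α) (N a : ℕ) (F : Finset ℕ)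
    (hF : F.card = N + 1) (T : α → Finset ℕ) (J : α → Finset ℕ → Prop) (D : α → Finset ℕ)
    (hTF : ∀ v ∈ V, T v ⊆ F) (hJF : ∀ v ∈ V, ¬ J v F) (hDJ : ∀ v ∈ V, J v (D v))
    (hDT : ∀ v ∈ V, D v ⊆ T v) (hDa : ∀ v ∈ V, (D v).card = a)
    (hmax : ∀ v ∈ V, ∀ S, J v S → S ⊆ T v → S.card ≤ a)
    (harc : ∀ u ∈ V, ∀ v ∈ V, u < v → ∃ g, g ∈ T v ∧ g ∉ T u ∧
      ∀ S, J u S → g ∉ S → J v (insert g S)) : V.card ≤ N.choose a := by
  classical
  by_contra hcon
  push Not at hcon
  have hVne : V.Nonempty := by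
    rw [← Finset.card_pos]; omega
  have haN : a ≤ N := by
    obtain ⟨v, hv⟩ := hVne
    have h1 := Finset.card_le_card ((hDT v hv).trans (hTF v hv))
    rw [hDa v hv, hF] at h1
    by_contra h2
    have h3 : D v = F := Finset.eq_of_subset_of_card_le ((hDT v hv).trans (hTF v hv))
      (by rw [hF, hDa v hv]; omega)
    exact hJF v hv (h3 ▸ hDJ v hv)
  obtain ⟨W, hWV, hne, hW⟩ := exists_no_private V N a F hF D hDa
    (fun v hv => (hDT v hv).trans (hTF v hv)) haN hcon
  -- (0)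
  have h0 : ∀ u ∈ V, ∀ v ∈ V, u < v → ¬ D u ⊆ T v := by
    intro u hu v hv huv hsub
    obtain ⟨g, hgv, hgu, hg⟩ := harc u hu v hv huv
    have hgD : g ∉ D u := fun h => hgu (hDT u hu h)
    have h1 := hmax v hv _ (hg _ (hDJ u hu) hgD) (Finset.insert_subset hgv hsub)
    rw [Finset.card_insert_of_notMem hgD, hDa u hu] at h1
    omega
  -- (2)
  have h2 : ∀ v ∈ W, T v = D v := by
    by_contra hbad
    push Not at hbad
    obtain ⟨v₁, hv₁, hv₁T⟩ := hbad
    let Bd := W.filter (fun v => T v ≠ D v)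
    have hBd : Bd.Nonempty := ⟨v₁, Finset.mem_filter.mpr ⟨hv₁, hv₁T⟩⟩
    obtain ⟨hvW, hvT⟩ := Finset.mem_filter.mp (Bd.max'_mem hBd)
    set v := Bd.max' hBd with hvdef
    have hlater : ∀ w ∈ W, v < w → T w = D w := by
      intro w hw hvw
      by_contra hw2
      exact absurd (Bd.le_max' w (Finset.mem_filter.mpr ⟨hw, hw2⟩)) (not_le.mpr hvw)
    obtain ⟨u, hu, huv, huT⟩ := hW (T v) (hTF v (hWV hvW)) v hvW (hDT v (hWV hvW)) (Ne.symm hvT)
    rcases lt_trichotomy u v with h | h | h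
    · exact h0 u (hWV hu) v (hWV hvW) h huT
    · exact huv h
    · obtain ⟨g, hgu, hgv, _⟩ := harc v (hWV hvW) u (hWV hu) h
      rw [hlater u hu h] at hgu
      exact hgv (huT hgu)
  -- (3)
  have h3 : ∀ n : ℕ, ∀ Q ⊆ F, Q.card = n → ∀ v ∈ W, D v ⊆ Q →
      (∀ w ∈ W, D w ⊆ Q → w ≤ v) → J v Q := by
    intro n
    induction n using Nat.strong_induction_on with
    | _ n ih =>
      intro Q hQ hQn v hv hvQ hlast
      by_cases hDQ : D v = Q
      · rw [← hDQ]; exact hDJ v (hWV hv)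
      · obtain ⟨u₀, hu₀, hu₀v, hu₀Q⟩ := hW Q hQ v hv hvQ hDQ
        let U := W.filter (fun u => D u ⊆ Q ∧ u < v)
        have hU : U.Nonempty := ⟨u₀, Finset.mem_filter.mpr
          ⟨hu₀, hu₀Q, lt_of_le_of_ne (hlast u₀ hu₀ hu₀Q) hu₀v⟩⟩
        obtain ⟨huW, huQ, huv⟩ := Finset.mem_filter.mp (U.max'_mem hU)
        set u := U.max' hU with hudef
        obtain ⟨g, hgv, hgu, hg⟩ := harc u (hWV huW) v (hWV hv) huv
        rw [h2 v hv] at hgv
        rw [h2 u huW] at hgu
        have hgQ : g ∈ Q := hvQ hgv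
        have h4 : J u (Q.erase g) := by
          refine ih _ ?_ (Q.erase g) ((Finset.erase_subset _ _).trans hQ) rfl u huW ?_ ?_
          · rw [← hQn]; exact Finset.card_erase_lt_of_mem hgQ
          · intro x hx
            exact Finset.mem_erase.mpr ⟨fun h => hgu (h ▸ hx), huQ hx⟩
          · intro w hw hwQ
            have hwQ' : D w ⊆ Q := hwQ.trans (Finset.erase_subset _ _)
            have hwv : w ≠ v := fun h => by
              rw [h] at hwQ
              exact (Finset.mem_erase.mp (hwQ hgv)).1 rfl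
            exact U.le_max' w (Finset.mem_filter.mpr
              ⟨hw, hwQ', lt_of_le_of_ne (hlast w hw hwQ') hwv⟩)
        have h5 := hg _ h4 (Finset.notMem_erase g Q)
        rwa [Finset.insert_erase hgQ] at h5
  -- (4)
  have hz := W.max'_mem hne
  exact hJF _ (hWV hz) (h3 _ F (Finset.Subset.refl _) rfl _ hz
    ((hDT _ (hWV hz)).trans (hTF _ (hWV hz))) fun w hw _ => W.le_max' w hw)

end SB

end FlashRainbow
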