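import Pool.Agent.Work.MP_54723a_co.SB.Count

/-!
# Supports of relations (the form used by helper6's cocycle method, note 7829)

If a set `V` of tuples of finite sets is larger than the skew Bollobas bound, then there is a
non-empty `W ⊆ V` such that no admissible test tuple is met by exactly one element of `W`.
-/

set_option autoImplicit false

namespace FlashRainbow

namespace SB

open Finset

/-- more vectors than the dimension: the support of a relation -/
theorem exists_support {I α : Type*} [Fintype I] (V : Finset α) (x : α → I → ℚ)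
    (h : Fintype.card I < V.card) : ∃ W ⊆ V, W.Nonempty ∧ ∃ c : α → ℚ, (∀ v ∈ W, c v ≠ 0) ∧
      ∀ y : I → ℚ, ∑ v ∈ W, c v * ∑ s, x v s * y s = 0 := by
  classical
  have hnli : ¬ LinearIndependent ℚ (fun v : V => x v) := by
    intro hli
    have h3 := hli.fintype_card_le_finrank
    rw [Module.finrank_fintype_fun_eq_card, Fintype.card_coe] at h3
    omega
  rw [Fintype.not_linearIndependent_iff] at hnli
  obtain ⟨g, hg, i, hi⟩ := hnli
  let c : α → ℚ := fun v => if hv : v ∈ V then g ⟨v, hv⟩ else 0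
  have hc : ∀ v : V, c v = g v := fun v => by simp [c]
  refine ⟨V.filter (fun v => c v ≠ 0), Finset.filter_subset _ _, ⟨i, ?_⟩, c, ?_, ?_⟩
  · rw [Finset.mem_filter]
    exact ⟨i.2, by rw [hc]; exact hi⟩
  · intro v hv
    exact (Finset.mem_filter.mp hv).2
  · intro y
    have h1 : ∑ v ∈ V.filter (fun v => c v ≠ 0), c v * ∑ s, x v s * y s =
        ∑ v ∈ V, c v * ∑ s, x v s * y s := by
      apply Finset.sum_subset (Finset.filter_subset _ _)
      intro v hv hv2
      have : c v = 0 := by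
        by_contra hne
        exact hv2 (Finset.mem_filter.mpr ⟨hv, hne⟩)
      rw [this, zero_mul]
    rw [h1, ← Finset.sum_coe_sort V]
    have h2 : ∑ s, (∑ v : V, g v • x v) s * y s = 0 := by
      rw [hg]; simp
    rw [← h2]
    simp only [Finset.sum_apply, Pi.smul_apply, smul_eq_mul, Finset.sum_mul, Finset.mul_sum, hc]
    rw [Finset.sum_comm]
    refine Finset.sum_congr rfl fun s _ => Finset.sum_congr rfl fun v _ => by ring

/-- **Supports, tuples of pairs.** -/
theorem exists_support_pairs {ι α : Type*} [Fintype ι] (V : Finset α) (a b : ι → ℕ)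
    (P : α → ι → Finset ℕ) (hP : ∀ v ∈ V, ∀ j, (P v j).card = a j)
    (h : ∏ j, (a j + b j).choose (a j) < V.card) :
    ∃ W ⊆ V, W.Nonempty ∧ ∀ Z : ι → Finset ℕ, (∀ j, (Z j).card = b j) →
      ∀ v ∈ W, (∀ j, Disjoint (P v j) (Z j)) → ∃ u ∈ W, u ≠ v ∧ ∀ j, Disjoint (P u j) (Z j) := by
  classical
  obtain ⟨W, hWV, hne, c, hc, hrel⟩ := exists_support (I := ∀ j, Sym (Fin (a j + 1)) (b j)) V
    (fun v s => ∏ j, xv (a j) (b j) (P v j) (s j)) (by
      rw [Fintype.card_pi]
      simp only [card_sym]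
      exact h)
  refine ⟨W, hWV, hne, fun Z hZ v hv hdis => ?_⟩
  by_contra hcon
  push Not at hcon
  have h1 := hrel (fun s => ∏ j, yv (a j) (b j) (Z j) (s j))
  rw [Finset.sum_eq_single v] at h1
  · rcases mul_eq_zero.mp h1 with h2 | h2
    · exact hc v hv h2
    · rw [sum_prod_pairing, Finset.prod_eq_zero_iff] at h2
      obtain ⟨j, _, hj⟩ := h2
      rw [pairing (hP v (hWV hv) j) (hZ j)] at hj
      exact B_ne_zero_iff.mpr (hdis j) hj
  · intro u hu huv
    obtain ⟨j, hj⟩ := hcon u hu huv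
    have h2 : ∑ s : ∀ j, Sym (Fin (a j + 1)) (b j), (∏ j, xv (a j) (b j) (P u j) (s j)) *
        (∏ j, yv (a j) (b j) (Z j) (s j)) = 0 := by
      rw [sum_prod_pairing]
      refine Finset.prod_eq_zero (Finset.mem_univ j) ?_
      rw [pairing (hP u (hWV hu) j) (hZ j)]
      by_contra h3
      exact hj (B_ne_zero_iff.mp h3)
    rw [h2, mul_zero]
  · intro h2; exact absurd hv h2

/-- **Supports, single sets, thin form.**  More than `N.choose a` sets `P_v` of size `a` in a
set `F` of size `N + 1`: there is a non-empty `W ⊆ V` such that no `Q ⊆ F` with more than `a`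
elements contains exactly one `P_v`, `v ∈ W`. -/
theorem exists_no_private {α : Type*} (V : Finset α) (N a : ℕ) (F : Finset ℕ)
    (hF : F.card = N + 1) (P : α → Finset ℕ) (hP : ∀ v ∈ V, (P v).card = a)
    (hPF : ∀ v ∈ V, P v ⊆ F) (ha : a ≤ N) (h : N.choose a < V.card) :
    ∃ W ⊆ V, W.Nonempty ∧ ∀ Q ⊆ F, ∀ v ∈ W, P v ⊆ Q → P v ≠ Q → ∃ u ∈ W, u ≠ v ∧ P u ⊆ Q := by
  classical
  obtain ⟨W, hWV, hne, hW⟩ := exists_support_pairs (ι := Unit) V (fun _ => a) (fun _ => N - a)
    (fun v _ => P v) (fun v hv _ => hP v hv) (by simpa [Nat.add_sub_cancel' ha] using h)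
  refine ⟨W, hWV, hne, fun Q hQ v hv hPQ hne2 => ?_⟩
  obtain ⟨y, hyQ, hyP⟩ : ∃ y ∈ Q, y ∉ P v := by
    by_contra hcon
    push Not at hcon
    exact hne2 (Finset.Subset.antisymm hPQ hcon)
  have hins : insert y (P v) ⊆ F := Finset.insert_subset (hQ hyQ) (hPF v (hWV hv))
  obtain ⟨u, hu, huv, hdis⟩ := hW (fun _ => F \ insert y (P v)) (fun _ => by
      rw [Finset.card_sdiff_of_subset hins, hF, Finset.card_insert_of_notMem hyP, hP v (hWV hv)]
      omega) v hv (fun _ => Finset.disjoint_sdiff.mono_left (Finset.subset_insert _ _))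
  refine ⟨u, hu, huv, fun x hx => ?_⟩
  by_contra hxQ
  have hx2 : x ∉ insert y (P v) := fun h' => hxQ (by
    rcases Finset.mem_insert.mp h' with rfl | h''
    · exact hyQ
    · exact hPQ h'')
  exact Finset.disjoint_left.mp (hdis ()) hx
    (Finset.mem_sdiff.mpr ⟨hPF u (hWV hu) hx, hx2⟩)

end SB

end FlashRainbow
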